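import Pool.Agent.W448.FF.Stmts

/-! PART of project FF: the partition inequality. -/

set_option autoImplicit false

namespace Pool.Agent.W128.FF

open Finset Pool.Agent.W448.FF

section
variable {V : Type} [Fintype V] (G : OG V) (w : V → ℝ) (p : V → Fin 3)

set_option linter.unusedSectionVars false

/-- same part indicator -/
noncomputable def s (u v : V) : ℝ := if p u = p v then 1 else 0

lemma s_symm (u v : V) : s p u v = s p v u := by
  unfold s
  by_cases h : p u = p v
  · rw [if_pos h, if_pos h.symm]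
  · rw [if_neg h, if_neg (fun h' => h h'.symm)]

lemma nn_symm (u v : V) : nn G u v = nn G v u := by
  unfold nn OG.adj
  by_cases h : G.arc u v ∨ G.arc v u
  · rw [if_pos h, if_pos h.symm]
  · rw [if_neg h, if_neg (fun h' => h h'.symm)]

lemma nn_cases (u v : V) : nn G u v = 0 ∨ nn G u v = 1 := by
  unfold nn
  by_cases h : G.adj u v
  · left; rw [if_pos h]
  · right; rw [if_neg h]

lemma P_eq (v : V) : P w p (p v) = ∑ z, w z * s p z v := by
  unfold P s
  apply Finset.sum_congr rfl
  intro z _
  split_ifs <;> simp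

lemma ein_eq (v : V) : ein G w p v = ∑ z, w z * s p z v * (1 - nn G v z) := by
  unfold ein s
  apply Finset.sum_congr rfl
  intro z _
  split_ifs <;> simp

lemma mcr_eq (v : V) : mcr G w p v = ∑ z, w z * (1 - s p z v) * nn G v z := by
  unfold mcr s
  apply Finset.sum_congr rfl
  intro z _
  split_ifs <;> simp

/-- first type of triples -/
noncomputable def A3 (v u z : V) : ℝ :=
  s p u v * s p z v * ((1 - nn G v u) * (nn G u z + nn G v z - 1))

/-- second type of triples -/
noncomputable def B3 (v u z : V) : ℝ :=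
  (1 - s p z v) * s p u z * (nn G v z * (nn G u z - nn G v u))

/-- triples counted by `Rr` -/
noncomputable def K3 (v u z : V) : ℝ :=
  (1 - nn G v u) * (nn G u z * nn G v z)

lemma triple (v u z : V) : A3 G p v u z + (B3 G p v u z + B3 G p u v z) ≤ K3 G v u z := by
  unfold A3 B3 K3
  rw [nn_symm G u v]
  unfold s
  have h1 := nn_cases G v u
  have h2 := nn_cases G u z
  have h3 := nn_cases G v z
  by_cases c1 : p u = p v
  · by_cases c2 : p z = p v
    · have c3 : p u = p z := c1.trans c2.symm
      have c4 : p v = p z := c2.symm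
      have c5 : p z = p u := c3.symm
      rw [if_pos c1, if_pos c2, if_pos c3, if_pos c5, if_pos c4]
      rcases h1 with h1 | h1 <;> rcases h2 with h2 | h2 <;> rcases h3 with h3 | h3 <;>
        rw [h1, h2, h3] <;> norm_num
    · have c3 : ¬ p u = p z := fun h => c2 (h.symm.trans c1)
      have c4 : ¬ p v = p z := fun h => c2 h.symm
      have c5 : ¬ p z = p u := fun h => c3 h.symm
      rw [if_pos c1, if_neg c2, if_neg c3, if_neg c5, if_neg c4]
      rcases h1 with h1 | h1 <;> rcases h2 with h2 | h2 <;> rcases h3 with h3 | h3 <;>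
        rw [h1, h2, h3] <;> norm_num
  · by_cases c2 : p z = p v
    · have c3 : ¬ p u = p z := fun h => c1 (h.trans c2)
      have c4 : p v = p z := c2.symm
      have c5 : ¬ p z = p u := fun h => c3 h.symm
      rw [if_neg c1, if_pos c2, if_neg c3, if_neg c5, if_pos c4]
      rcases h1 with h1 | h1 <;> rcases h2 with h2 | h2 <;> rcases h3 with h3 | h3 <;>
        rw [h1, h2, h3] <;> norm_num
    · have c4 : ¬ p v = p z := fun h => c2 h.symm
      by_cases c3 : p u = p z
      · have c5 : p z = p u := c3.symm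
        rw [if_neg c1, if_neg c2, if_pos c3, if_pos c5, if_neg c4]
        rcases h1 with h1 | h1 <;> rcases h2 with h2 | h2 <;> rcases h3 with h3 | h3 <;>
          rw [h1, h2, h3] <;> norm_num
      · have c5 : ¬ p z = p u := fun h => c3 h.symm
        rw [if_neg c1, if_neg c2, if_neg c3, if_neg c5, if_neg c4]
        rcases h1 with h1 | h1 <;> rcases h2 with h2 | h2 <;> rcases h3 with h3 | h3 <;>
          rw [h1, h2, h3] <;> norm_num

lemma sumA : ∑ v, ∑ u, ∑ z, w v * w u * w z * A3 G p v u z =
    ∑ v, w v * (ein G w p v * P w p (p v)) - 2 * ∑ v, w v * ein G w p v ^ 2 := by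
  have h1 : ∀ v u, ∑ z, w v * w u * w z * A3 G p v u z =
      w v * (w u * s p u v * (1 - nn G v u)) * (P w p (p v) - ein G w p u - ein G w p v) := by
    intro v u
    rw [P_eq w p v, ein_eq G w p u, ein_eq G w p v, ← Finset.sum_sub_distrib,
      ← Finset.sum_sub_distrib, Finset.mul_sum]
    apply Finset.sum_congr rfl
    intro z _
    unfold A3
    by_cases c : p u = p v
    · have hz : s p z u = s p z v := by unfold s; rw [c]
      rw [hz]; ring
    · have : s p u v = 0 := by unfold s; rw [if_neg c]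
      rw [this]; ring
  have h2 : ∀ v, ∑ u, ∑ z, w v * w u * w z * A3 G p v u z =
      w v * (ein G w p v * P w p (p v)) - w v * ein G w p v ^ 2 -
        ∑ u, w v * (w u * s p u v * (1 - nn G v u)) * ein G w p u := by
    intro v
    rw [Finset.sum_congr rfl (fun u _ => h1 v u)]
    have e1 : w v * (ein G w p v * P w p (p v)) - w v * ein G w p v ^ 2 =
        ∑ u, w v * (w u * s p u v * (1 - nn G v u)) * (P w p (p v) - ein G w p v) := by
      rw [← Finset.sum_mul, ← Finset.mul_sum, ← ein_eq]; ring
    rw [e1, ← Finset.sum_sub_distrib]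
    apply Finset.sum_congr rfl
    intro u _
    ring
  rw [Finset.sum_congr rfl (fun v _ => h2 v), Finset.sum_sub_distrib, Finset.sum_sub_distrib]
  have h3 : ∑ v, ∑ u, w v * (w u * s p u v * (1 - nn G v u)) * ein G w p u =
      ∑ v, w v * ein G w p v ^ 2 := by
    rw [Finset.sum_comm]
    apply Finset.sum_congr rfl
    intro u _
    have : w u * ein G w p u ^ 2 = w u * ein G w p u * ein G w p u := by ring
    rw [this]
    nth_rewrite 2 [ein_eq G w p u]
    rw [Finset.mul_sum, Finset.sum_mul]
    apply Finset.sum_congr rfl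
    intro v _
    rw [s_symm p u v, nn_symm G v u]
    ring
  rw [h3]
  ring

lemma sumB (hw : ∀ v, 0 ≤ w v) :
    ∑ v, w v * (mcr G w p v * P w p (p v)) - ∑ v, w v * mcr G w p v ^ 2 -
      ∑ v, w v * (mcr G w p v * ein G w p v) ≤
    ∑ v, ∑ u, ∑ z, w v * w u * w z * B3 G p v u z := by
  have h1 : ∀ v z, w v * (w z * (1 - s p z v) * nn G v z) *
      (P w p (p z) - ein G w p z - mcr G w p v) ≤ ∑ u, w v * w u * w z * B3 G p v u z := by
    intro v z
    have hs : 0 ≤ 1 - s p z v := by unfold s; split_ifs <;> norm_num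
    have hn : 0 ≤ nn G v z := by rcases nn_cases G v z with h | h <;> rw [h]; norm_num
    have e1 : ∑ u, w v * w u * w z * B3 G p v u z =
        w v * (w z * (1 - s p z v) * nn G v z) *
          (P w p (p z) - ein G w p z - ∑ u, w u * s p u z * nn G v u) := by
      rw [P_eq w p z, ein_eq G w p z, ← Finset.sum_sub_distrib,
        ← Finset.sum_sub_distrib, Finset.mul_sum]
      apply Finset.sum_congr rfl
      intro u _
      unfold B3
      rw [nn_symm G z u]
      ring
    rw [e1]
    by_cases c : p z = p v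
    · have : s p z v = 1 := by unfold s; rw [if_pos c]
      rw [this]; simp
    · apply mul_le_mul_of_nonneg_left
      · have : ∑ u, w u * s p u z * nn G v u ≤ mcr G w p v := by
          rw [mcr_eq]
          apply Finset.sum_le_sum
          intro u _
          have hn' : 0 ≤ nn G v u := by rcases nn_cases G v u with h | h <;> rw [h]; norm_num
          apply mul_le_mul_of_nonneg_right _ hn'
          apply mul_le_mul_of_nonneg_left _ (hw u)
          unfold s
          by_cases c1 : p u = p z
          · have c2 : ¬ p u = p v := fun h => c (c1.symm.trans h)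
            rw [if_pos c1, if_neg c2]; norm_num
          · rw [if_neg c1]
            split_ifs <;> norm_num
        linarith
      · exact mul_nonneg (hw v) (mul_nonneg (mul_nonneg (hw z) hs) hn)
  have h2 : ∑ v, ∑ z, w v * (w z * (1 - s p z v) * nn G v z) *
      (P w p (p z) - ein G w p z - mcr G w p v) ≤
      ∑ v, ∑ u, ∑ z, w v * w u * w z * B3 G p v u z := by
    apply Finset.sum_le_sum
    intro v _
    rw [Finset.sum_comm]
    apply Finset.sum_le_sum
    intro z _
    exact h1 v z
  refine le_trans (le_of_eq ?_) h2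
  have e2 : ∑ v, ∑ z, w v * (w z * (1 - s p z v) * nn G v z) *
      (P w p (p z) - ein G w p z - mcr G w p v) =
      ∑ v, ∑ z, w v * (w z * (1 - s p z v) * nn G v z) * (P w p (p z) - ein G w p z) -
      ∑ v, ∑ z, w v * (w z * (1 - s p z v) * nn G v z) * mcr G w p v := by
    rw [← Finset.sum_sub_distrib]
    apply Finset.sum_congr rfl
    intro v _
    rw [← Finset.sum_sub_distrib]
    apply Finset.sum_congr rfl
    intro z _
    ring
  have e3 : ∑ v, ∑ z, w v * (w z * (1 - s p z v) * nn G v z) * mcr G w p v =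
      ∑ v, w v * mcr G w p v ^ 2 := by
    apply Finset.sum_congr rfl
    intro v _
    rw [← Finset.sum_mul, ← Finset.mul_sum, ← mcr_eq]
    ring
  have e4 : ∑ v, ∑ z, w v * (w z * (1 - s p z v) * nn G v z) * (P w p (p z) - ein G w p z) =
      ∑ v, w v * (mcr G w p v * P w p (p v)) - ∑ v, w v * (mcr G w p v * ein G w p v) := by
    rw [Finset.sum_comm, ← Finset.sum_sub_distrib]
    apply Finset.sum_congr rfl
    intro z _
    have : w z * (mcr G w p z * P w p (p z)) - w z * (mcr G w p z * ein G w p z) =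
        w z * mcr G w p z * (P w p (p z) - ein G w p z) := by ring
    rw [this]
    nth_rewrite 1 [mcr_eq G w p z]
    rw [Finset.mul_sum, Finset.sum_mul]
    apply Finset.sum_congr rfl
    intro v _
    rw [s_symm p v z, nn_symm G z v]
    ring
  rw [e2, e3, e4]
  ring

lemma T_bound (hw : ∀ v, 0 ≤ w v) :
    2 * (∑ v, w v * (ein G w p v * P w p (p v)) - 2 * ∑ v, w v * ein G w p v ^ 2 +
      2 * (∑ v, w v * (mcr G w p v * P w p (p v)) - ∑ v, w v * mcr G w p v ^ 2 -
      ∑ v, w v * (mcr G w p v * ein G w p v))) ≤ ∑ v, w v * Rr G w v := by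
  have e0 : ∑ v, w v * Rr G w v = 2 * ∑ v, ∑ u, ∑ z, w v * w u * w z * K3 G v u z := by
    rw [Finset.mul_sum]
    apply Finset.sum_congr rfl
    intro v _
    unfold Rr K3
    rw [← mul_assoc, mul_comm (w v) 2, mul_assoc, Finset.mul_sum]
    congr 1
    apply Finset.sum_congr rfl
    intro u _
    rw [Finset.mul_sum]
    apply Finset.sum_congr rfl
    intro z _
    ring
  have e1 : ∑ v, ∑ u, ∑ z, w v * w u * w z * A3 G p v u z +
      (∑ v, ∑ u, ∑ z, w v * w u * w z * B3 G p v u z +
       ∑ v, ∑ u, ∑ z, w v * w u * w z * B3 G p u v z) ≤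
      ∑ v, ∑ u, ∑ z, w v * w u * w z * K3 G v u z := by
    rw [← Finset.sum_add_distrib, ← Finset.sum_add_distrib]
    apply Finset.sum_le_sum
    intro v _
    rw [← Finset.sum_add_distrib, ← Finset.sum_add_distrib]
    apply Finset.sum_le_sum
    intro u _
    rw [← Finset.sum_add_distrib, ← Finset.sum_add_distrib]
    apply Finset.sum_le_sum
    intro z _
    have h := triple G p v u z
    have hh : 0 ≤ w v * w u * w z := mul_nonneg (mul_nonneg (hw v) (hw u)) (hw z)
    have := mul_le_mul_of_nonneg_left h hh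
    linarith
  have e2 : ∑ v, ∑ u, ∑ z, w v * w u * w z * B3 G p u v z =
      ∑ v, ∑ u, ∑ z, w v * w u * w z * B3 G p v u z := by
    rw [Finset.sum_comm]
    apply Finset.sum_congr rfl
    intro u _
    apply Finset.sum_congr rfl
    intro v _
    apply Finset.sum_congr rfl
    intro z _
    ring
  rw [e2, sumA] at e1
  have e3 := sumB G w p hw
  rw [e0]
  linarith

lemma sum_ep (f : ℝ → ℝ) : ∑ v, w v * f (ep w p (p v)) =
    P w p 0 * f (ep w p 0) + P w p 1 * f (ep w p 1) + P w p 2 * f (ep w p 2) := by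
  unfold P
  rw [Finset.sum_mul, Finset.sum_mul, Finset.sum_mul, ← Finset.sum_add_distrib,
    ← Finset.sum_add_distrib]
  apply Finset.sum_congr rfl
  intro v _
  have : p v = 0 ∨ p v = 1 ∨ p v = 2 := by
    generalize p v = j
    fin_cases j <;> simp
  rcases this with h | h | h <;> rw [h] <;> simp

end

theorem part' (h1 : S_ID) (h2 : S_DEC) : S_PART := by
  intro V _ G w p hw
  obtain ⟨_, hb, _⟩ := h1 V G w hw.2
  obtain ⟨hep, hH, _, _, _, _, hEH, _, _, _⟩ := h2 V G w p hw
  have hT := T_bound G w p hw.1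
  rw [hb]
  have hE2 : ∑ v, w v * ep w p (p v) ^ 2 = P w p 0 * ep w p 0 ^ 2 + P w p 1 * ep w p 1 ^ 2 +
      P w p 2 * ep w p 2 ^ 2 := sum_ep w p (fun x => x ^ 2)
  have hP : ∀ j, P w p j = 1 / 3 + ep w p j := by intro j; unfold ep; ring
  have hpe : ∑ v, w v * (ein G w p v * P w p (p v)) =
      1 / 3 * ∑ v, w v * ein G w p v + ∑ v, w v * (ep w p (p v) * ein G w p v) := by
    rw [Finset.mul_sum, ← Finset.sum_add_distrib]
    apply Finset.sum_congr rfl
    intro v _
    rw [hP]; ring
  have hpm : ∑ v, w v * (mcr G w p v * P w p (p v)) =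
      1 / 3 * ∑ v, w v * mcr G w p v + ∑ v, w v * (ep w p (p v) * mcr G w p v) := by
    rw [Finset.mul_sum, ← Finset.sum_add_distrib]
    apply Finset.sum_congr rfl
    intro v _
    rw [hP]; ring
  have hHH : ∑ v, w v * (Hh G w v - 1 / 3) ^ 2 =
      ∑ v, w v * ep w p (p v) ^ 2 + 2 * ∑ v, w v * (ep w p (p v) * mcr G w p v) -
      2 * ∑ v, w v * (ep w p (p v) * ein G w p v) + ∑ v, w v * ein G w p v ^ 2 +
      ∑ v, w v * mcr G w p v ^ 2 - 2 * ∑ v, w v * (mcr G w p v * ein G w p v) := by
    rw [Finset.mul_sum, Finset.mul_sum, Finset.mul_sum, ← Finset.sum_add_distrib,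
      ← Finset.sum_sub_distrib, ← Finset.sum_add_distrib, ← Finset.sum_add_distrib,
      ← Finset.sum_sub_distrib]
    apply Finset.sum_congr rfl
    intro v _
    rw [hH v]; ring
  have hD : ∑ v, w v * (D G w p v * (1 - 3 * D G w p v)) =
      ∑ v, w v * ein G w p v + ∑ v, w v * mcr G w p v - 3 * ∑ v, w v * ein G w p v ^ 2 -
      3 * ∑ v, w v * mcr G w p v ^ 2 - 6 * ∑ v, w v * (mcr G w p v * ein G w p v) := by
    rw [Finset.mul_sum, Finset.mul_sum, Finset.mul_sum, ← Finset.sum_add_distrib,
      ← Finset.sum_sub_distrib, ← Finset.sum_sub_distrib, ← Finset.sum_sub_distrib]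
    apply Finset.sum_congr rfl
    intro v _
    unfold D; ring
  rw [hD, hHH, hEH, hE2, hP, hP, hP]
  rw [hpe, hpm] at hT
  have h2' : ep w p 2 = - ep w p 0 - ep w p 1 := by linarith
  rw [h2']
  generalize ep w p 0 = a at *
  generalize ep w p 1 = c at *
  nlinarith [hT]

end Pool.Agent.W128.FF
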